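import Mathlib
import Pool.Agent.R673.FSMain

set_option autoImplicit false

namespace Pool.Agent.Results.MP_055c61_al.SylowIntersection

/-- Let `p` be a prime, `G` a group of permutations of a set `Ω` each of which moves only finitely
many points, `N` a normal subgroup of `G`, and `S` a Sylow `p`-subgroup of `G` (a maximal
`p`-subgroup, as in Mathlib's `Sylow p G`) which is transitive on `Ω`. Then `S ∩ N` is a Sylow
`p`-subgroup of `N`. -/
theorem result (p : ℕ) (hp : p.Prime) (Ω : Type*) (G : Subgroup (Equiv.Perm Ω))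
    (hfin : ∀ g ∈ G, {x : Ω | g x ≠ x}.Finite)
    (N : Subgroup G) (hN : N.Normal) (S : Sylow p G)
    (hS : ∀ x y : Ω, ∃ s ∈ S, (s : Equiv.Perm Ω) x = y) :
    ∃ T : Sylow p N, (T : Subgroup N) = (S : Subgroup G).subgroupOf N := by
  haveI : Fact p.Prime := ⟨hp⟩
  haveI : MulAction.IsPretransitive S Ω := ⟨fun x y => by
    obtain ⟨s, hs, h⟩ := hS x y
    exact ⟨⟨s, hs⟩, h⟩⟩
  exact Pool.Agent.R673.FS.normal_case (G := G) (Ω := Ω) (fun g => hfin g g.2) S N

end Pool.Agent.Results.MP_055c61_al.SylowIntersection
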