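import Mathlib

/-!
MP_055c61_al: transitive Sylow `p`-subgroups of finitary permutation groups.
Both Q1 and Q2 have a positive answer.
-/

namespace Pool.Agent.Results.MP_055c61_al.TransitiveSylow

open Equiv
open scoped commutatorElement Pointwise

variable {Ω : Type*}

theorem inv_app (f : Perm Ω) (x : Ω) : f⁻¹ (f x) = x := f.symm_apply_apply x

theorem app_inv (f : Perm Ω) (x : Ω) : f (f⁻¹ x) = x := f.apply_symm_apply x

/-- The group of all permutations supported in `D`. -/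
def suppIn (D : Set Ω) : Subgroup (Perm Ω) where
  carrier := {g | ∀ x, x ∉ D → g x = x}
  mul_mem' := by
    intro a b ha hb x hx
    rw [Perm.mul_apply, hb x hx, ha x hx]
  one_mem' := fun x _ => rfl
  inv_mem' := by
    intro a ha x hx
    rw [Perm.inv_eq_iff_eq]
    exact (ha x hx).symm

theorem mem_suppIn {D : Set Ω} {g : Perm Ω} : g ∈ suppIn D ↔ ∀ x, x ∉ D → g x = x := Iff.rfl

theorem suppIn_maps {D : Set Ω} {g : Perm Ω} (hg : g ∈ suppIn D) {x : Ω} (hx : x ∈ D) :
    g x ∈ D := by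
  by_contra h
  have h1 := hg (g x) h
  have h2 : g x = x := g.injective h1
  rw [h2] at h
  exact h hx

theorem finite_suppIn {D : Set Ω} (hD : D.Finite) : Finite (suppIn D) := by
  classical
  have : Finite D := hD
  refine Finite.of_injective
    (fun (g : suppIn D) (x : D) => (⟨g.1 x.1, suppIn_maps g.2 x.2⟩ : D)) ?_
  intro g h hgh
  apply Subtype.ext
  ext x
  by_cases hx : x ∈ D
  · have := congrFun hgh ⟨x, hx⟩
    simpa using this
  · rw [g.2 x hx, h.2 x hx]

theorem suppIn_mono {D D' : Set Ω} (h : D ⊆ D') : suppIn D ≤ suppIn D' := by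
  intro g hg x hx
  exact hg x (fun h' => hx (h h'))

/-- local finiteness of the finitary symmetric group -/
theorem finite_closure (T : Set (Perm Ω)) (hT : T.Finite)
    (hf : ∀ t ∈ T, {x | t x ≠ x}.Finite) : Finite (Subgroup.closure T) := by
  have hD : (⋃ t ∈ T, {x | t x ≠ x}).Finite := hT.biUnion hf
  have hle : Subgroup.closure T ≤ suppIn (⋃ t ∈ T, {x | t x ≠ x}) := by
    rw [Subgroup.closure_le]
    intro t ht x hx
    by_contra h
    exact hx (Set.mem_biUnion ht h)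
  have := finite_suppIn hD
  exact Finite.of_injective _ (Subgroup.inclusion_injective hle)

/-! ### maximal subgroups of locally finite `p`-groups -/

/-- In a finite `p`-group a maximal subgroup contains all commutators. -/
theorem comm_mem_of_coatom {p : ℕ} [Fact p.Prime] {L : Type*} [Group L] [Finite L]
    (hL : IsPGroup p L) (M : Subgroup L) (hM : IsCoatom M) (a b : L) :
    ⁅a, b⁆ ∈ M := by
  have hnil : Group.IsNilpotent L := hL.isNilpotent
  have hnc : NormalizerCondition L := Group.normalizerCondition_of_isNilpotent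
  have hn : M.Normal := Subgroup.NormalizerCondition.normal_of_coatom _ hnc hM
  -- the quotient is a simple-like p-group, its center is nontrivial
  have hQ : IsPGroup p (L ⧸ M) := hL.to_quotient M
  have hnt : Nontrivial (L ⧸ M) := by
    rw [← not_subsingleton_iff_nontrivial]
    intro hs
    exact hM.1 (QuotientGroup.subsingleton_iff.mp hs)
  have hcen : Nontrivial (Subgroup.center (L ⧸ M)) := hQ.center_nontrivial
  -- preimage of the center is everything
  have hpre : (Subgroup.center (L ⧸ M)).comap (QuotientGroup.mk' M) = ⊤ := by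
    apply hM.2
    obtain ⟨z, hz⟩ := exists_ne (1 : Subgroup.center (L ⧸ M))
    obtain ⟨y, hy⟩ := QuotientGroup.mk'_surjective M z.1
    refine lt_of_le_of_ne ?_ ?_
    · intro m hm
      rw [Subgroup.mem_comap]
      have : (QuotientGroup.mk' M) m = 1 := by
        rw [QuotientGroup.mk'_apply, QuotientGroup.eq_one_iff]
        exact hm
      rw [this]
      exact one_mem _
    · intro heq
      have hyc : y ∈ (Subgroup.center (L ⧸ M)).comap (QuotientGroup.mk' M) := by
        rw [Subgroup.mem_comap, hy]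
        exact z.2
      rw [← heq] at hyc
      apply hz
      apply Subtype.ext
      rw [← hy, QuotientGroup.mk'_apply, (QuotientGroup.eq_one_iff y).mpr hyc]
      rfl
  have ha : (QuotientGroup.mk' M) a ∈ Subgroup.center (L ⧸ M) := by
    have : a ∈ (Subgroup.center (L ⧸ M)).comap (QuotientGroup.mk' M) := by
      rw [hpre]; trivial
    exact this
  rw [← QuotientGroup.eq_one_iff, ← QuotientGroup.mk'_apply, map_commutatorElement,
    commutatorElement_eq_one_iff_mul_comm]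
  exact (Subgroup.mem_center_iff.mp ha _).symm

/-- A maximal subgroup of a locally finite `p`-group contains all commutators. -/
theorem comm_mem_of_coatom' {p : ℕ} [Fact p.Prime] {K : Type*} [Group K]
    (hK : IsPGroup p K) (hlf : ∀ T : Set K, T.Finite → Finite (Subgroup.closure T))
    (H : Subgroup K) (hH : IsCoatom H) (a b : K) : ⁅a, b⁆ ∈ H := by
  by_contra hg
  set g := ⁅a, b⁆ with hgdef
  -- closure of H and g is everything
  have htop : H ⊔ Subgroup.zpowers g = ⊤ := by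
    apply hH.2
    refine lt_of_le_of_ne le_sup_left ?_
    intro heq
    apply hg
    rw [heq]
    exact (le_sup_right : Subgroup.zpowers g ≤ _) (Subgroup.mem_zpowers g)
  have hfg : ∀ x : K, ∃ T : Set K, T.Finite ∧ T ⊆ H ∧ x ∈ Subgroup.closure (T ∪ {g}) := by
    intro x
    have hx : x ∈ Subgroup.closure ((H : Set K) ∪ {g}) := by
      have : Subgroup.closure ((H : Set K) ∪ {g}) = ⊤ := by
        rw [Subgroup.closure_union, Subgroup.closure_eq, ← Subgroup.zpowers_eq_closure, htop]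
      rw [this]; trivial
    induction hx using Subgroup.closure_induction with
    | mem x hx =>
      rcases hx with hx | hx
      · exact ⟨{x}, Set.finite_singleton x, by simpa using hx,
          Subgroup.subset_closure (Or.inl rfl)⟩
      · exact ⟨∅, Set.finite_empty, Set.empty_subset _, Subgroup.subset_closure (Or.inr hx)⟩
    | one => exact ⟨∅, Set.finite_empty, Set.empty_subset _, one_mem _⟩
    | mul x y _ _ hx hy =>
      obtain ⟨T, hT, hTH, hxT⟩ := hx
      obtain ⟨U, hU, hUH, hyU⟩ := hy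
      refine ⟨T ∪ U, hT.union hU, Set.union_subset hTH hUH, mul_mem ?_ ?_⟩
      · refine Subgroup.closure_mono ?_ hxT
        intro z hz
        rcases hz with hz | hz
        · exact Or.inl (Or.inl hz)
        · exact Or.inr hz
      · refine Subgroup.closure_mono ?_ hyU
        intro z hz
        rcases hz with hz | hz
        · exact Or.inl (Or.inr hz)
        · exact Or.inr hz
    | inv x _ hx =>
      obtain ⟨T, hT, hTH, hxT⟩ := hx
      exact ⟨T, hT, hTH, inv_mem hxT⟩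
  obtain ⟨T, hT, hTH, haT⟩ := hfg a
  obtain ⟨U, hU, hUH, hbU⟩ := hfg b
  set L : Subgroup K := Subgroup.closure (T ∪ U ∪ {g}) with hL
  have hTL : T ∪ {g} ⊆ T ∪ U ∪ {g} := by
    intro z hz
    rcases hz with hz | hz
    · exact Or.inl (Or.inl hz)
    · exact Or.inr hz
  have hUL : U ∪ {g} ⊆ T ∪ U ∪ {g} := by
    intro z hz
    rcases hz with hz | hz
    · exact Or.inl (Or.inr hz)
    · exact Or.inr hz
  have haL : a ∈ L := Subgroup.closure_mono hTL haT
  have hbL : b ∈ L := Subgroup.closure_mono hUL hbU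
  have hgL : g ∈ L := Subgroup.subset_closure (Or.inr rfl)
  have hLfin : Finite L := hlf _ ((hT.union hU).union (Set.finite_singleton g))
  have hLp : IsPGroup p L := hK.to_subgroup L
  -- a coatom of L above H ∩ L
  have hne : H.subgroupOf L ≠ ⊤ := by
    intro h
    apply hg
    have : (⟨g, hgL⟩ : L) ∈ H.subgroupOf L := by rw [h]; trivial
    exact this
  obtain ⟨M0, hM0, hle⟩ := (eq_top_or_exists_le_coatom (H.subgroupOf L)).resolve_left hne
  have hgM : (⟨g, hgL⟩ : L) ∈ M0 := by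
    have := comm_mem_of_coatom hLp M0 hM0 ⟨a, haL⟩ ⟨b, hbL⟩
    have h2 : (⟨g, hgL⟩ : L) = ⁅(⟨a, haL⟩ : L), ⟨b, hbL⟩⁆ := by
      apply Subtype.ext
      rfl
    rw [h2]
    exact this
  apply hM0.1
  rw [eq_top_iff]
  have hmap : L ≤ M0.map L.subtype := by
    refine (Subgroup.closure_le _).mpr ?_
    intro z hz
    rcases hz with (hz | hz) | hz
    · have hzL : z ∈ L := Subgroup.subset_closure (Or.inl (Or.inl hz))
      exact ⟨⟨z, hzL⟩, hle (hTH hz), rfl⟩
    · have hzL : z ∈ L := Subgroup.subset_closure (Or.inl (Or.inr hz))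
      exact ⟨⟨z, hzL⟩, hle (hUH hz), rfl⟩
    · rw [Set.mem_singleton_iff] at hz
      exact ⟨⟨g, hgL⟩, hgM, hz.symm⟩
  intro x _
  obtain ⟨y, hy, hyx⟩ := hmap x.2
  have : y = x := Subtype.ext hyx
  rw [← this]
  exact hy

/-- A maximal subgroup of a locally finite `p`-group has finitely many cosets. -/
theorem finite_cosets {p : ℕ} [Fact p.Prime] {K : Type*} [Group K]
    (hK : IsPGroup p K) (hlf : ∀ T : Set K, T.Finite → Finite (Subgroup.closure T))
    (H : Subgroup K) (hH : IsCoatom H) :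
    ∃ R : Set K, R.Finite ∧ ∀ k : K, ∃ r ∈ R, ∃ h ∈ H, k = r * h := by
  have hn : H.Normal := by
    constructor
    intro n hn g
    have h1 := comm_mem_of_coatom' hK hlf H hH g n
    have h2 : g * n * g⁻¹ = ⁅g, n⁆ * n := by
      rw [commutatorElement_def]; group
    rw [h2]
    exact mul_mem h1 hn
  obtain ⟨k, hk⟩ : ∃ k : K, k ∉ H := by
    by_contra h
    push Not at h
    exact hH.1 (eq_top_iff.mpr (fun x _ => h x))
  have htop : Subgroup.zpowers k ⊔ H = ⊤ := by
    rw [sup_comm]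
    apply hH.2
    refine lt_of_le_of_ne le_sup_left ?_
    intro heq
    apply hk
    rw [heq]
    exact (le_sup_right : Subgroup.zpowers k ≤ _) (Subgroup.mem_zpowers k)
  refine ⟨(Subgroup.zpowers k : Set K), ?_, ?_⟩
  · obtain ⟨m, hm⟩ := hK k
    have hfo : IsOfFinOrder k := by
      rw [isOfFinOrder_iff_pow_eq_one]
      exact ⟨p ^ m, pow_pos (Fact.out : p.Prime).pos m, hm⟩
    exact hfo.finite_zpowers
  · intro x
    have hx : x ∈ Subgroup.zpowers k ⊔ H := by rw [htop]; trivial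
    obtain ⟨r, hr, h, hh, hrh⟩ := Subgroup.mem_sup_of_normal_right.mp hx
    exact ⟨r, hr, h, hh, hrh.symm⟩

/-! ### blocks -/

/-- `B` is a block of `S`. -/
def IsB (S : Subgroup (Perm Ω)) (B : Set Ω) : Prop :=
  ∀ s ∈ S, ∀ x ∈ B, s x ∈ B → ∀ y ∈ B, s y ∈ B

theorem exists_finite_block {p : ℕ} [Fact p.Prime] (S : Subgroup (Perm Ω))
    (hSp : IsPGroup p S) (hfin : ∀ s ∈ S, {x | s x ≠ x}.Finite)
    (htr : ∀ x y, ∃ s ∈ S, s x = y) (α : Ω) (F : Set Ω) (hF : F.Finite) :
    ∃ Δ : Set Ω, Δ.Finite ∧ F ⊆ Δ ∧ α ∈ Δ ∧ IsB S Δ := by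
  classical
  by_cases hFs : F ⊆ {α}
  · refine ⟨{α}, Set.finite_singleton α, hFs, rfl, ?_⟩
    intro s _ x hx hsx y hy
    rw [Set.mem_singleton_iff] at hx hy
    rw [hy, ← hx, Set.mem_singleton_iff, hx] 
    rw [Set.mem_singleton_iff, hx] at hsx
    exact hsx
  -- Zorn
  obtain ⟨B, hBmax⟩ : ∃ B : Set Ω, Maximal (· ∈ {B : Set Ω | IsB S B ∧ α ∈ B ∧ ¬ F ⊆ B}) B := by
    apply zorn_subset
    intro c hc hchain
    by_cases hne : c.Nonempty
    · refine ⟨⋃₀ c, ⟨?_, ?_, ?_⟩, fun s hs => Set.subset_sUnion_of_mem hs⟩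
      · intro s hs x hx hsx y hy
        obtain ⟨C1, hC1, hx1⟩ := hx
        obtain ⟨C2, hC2, hx2⟩ := hsx
        obtain ⟨C3, hC3, hx3⟩ := hy
        have hdir : DirectedOn (· ⊆ ·) c := hchain.directedOn
        obtain ⟨C4, hC4, h14, h24⟩ := hdir C1 hC1 C2 hC2
        obtain ⟨C5, hC5, h45, h35⟩ := hdir C4 hC4 C3 hC3
        exact ⟨C5, hC5, (hc hC5).1 s hs x (h45 (h14 hx1)) (h45 (h24 hx2)) y (h35 hx3)⟩
      · obtain ⟨C, hC⟩ := hne
        exact ⟨C, hC, (hc hC).2.1⟩
      · intro hsub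
        obtain ⟨C, hC, hFC⟩ := DirectedOn.exists_mem_subset_of_finite_of_subset_sUnion hne
          hchain.directedOn hF hsub
        exact (hc hC).2.2 hFC
    · rw [Set.not_nonempty_iff_eq_empty] at hne
      subst hne
      refine ⟨{α}, ⟨?_, rfl, hFs⟩, fun s hs => absurd hs (Set.notMem_empty s)⟩
      intro s _ x hx hsx y hy
      rw [Set.mem_singleton_iff] at hx hy
      rw [hy, ← hx, Set.mem_singleton_iff, hx]
      rw [Set.mem_singleton_iff, hx] at hsx
      exact hsx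
  obtain ⟨⟨hB, hαB, hFB⟩, hmax⟩ := hBmax
  -- B is finite
  have hBfin : B.Finite := by
    obtain ⟨ω, hω⟩ : ∃ ω, ω ∉ B := by
      by_contra h
      push Not at h
      exact hFB (fun x _ => h x)
    obtain ⟨s, hs, hsω⟩ := htr α ω
    refine (hfin s hs).subset ?_
    intro y hy hsy
    have hsy' : s y = y := hsy
    apply hω
    rw [← hsω]
    exact hB s hs y hy (by rw [hsy']; exact hy) α hαB
  -- the next block
  set B' : Set Ω := ⋂₀ {C | IsB S C ∧ B ⊂ C} with hB'def
  have hFC : ∀ C, IsB S C → B ⊂ C → F ⊆ C := by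
    intro C hC hBC
    by_contra h
    exact hBC.2 (hmax ⟨hC, hBC.1 hαB, h⟩ hBC.1)
  have hFB' : F ⊆ B' := by
    intro x hx C hC
    exact hFC C hC.1 hC.2 hx
  have hBB' : B ⊆ B' := by
    intro x hx C hC
    exact hC.2.1 hx
  have hB' : IsB S B' := by
    intro s hs x hx hsx y hy C hC
    exact hC.1 s hs x (hx C hC) (hsx C hC) y (hy C hC)
  have hαB' : α ∈ B' := hBB' hαB
  have hmin : ∀ C, IsB S C → B ⊂ C → B' ⊆ C := by
    intro C hC hBC x hx
    exact hx C ⟨hC, hBC⟩
  refine ⟨B', ?_, hFB', hαB', hB'⟩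
  -- stabilizers
  let stab : (C : Set Ω) → IsB S C → α ∈ C → Subgroup S := fun C hC hαC =>
    { carrier := {s | s.1 α ∈ C}
      mul_mem' := by
        intro a b ha hb
        have hb' : b.1 α ∈ C := hb
        have ha' : a.1 α ∈ C := ha
        change a.1 (b.1 α) ∈ C
        exact hC a.1 a.2 α hαC ha' _ hb'
      one_mem' := hαC
      inv_mem' := by
        intro a ha
        have ha' : a.1 α ∈ C := ha
        change a.1⁻¹ α ∈ C
        refine hC a.1⁻¹ (S.inv_mem a.2) (a.1 α) ha' ?_ α hαC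
        rw [inv_app]
        exact hαC }
  let K : Subgroup S := stab B' hB' hαB'
  let H0 : Subgroup S := stab B hB hαB
  have hK : ∀ s : S, s ∈ K ↔ s.1 α ∈ B' := fun s => Iff.rfl
  have hH0 : ∀ s : S, s ∈ H0 ↔ s.1 α ∈ B := fun s => Iff.rfl
  have hHK : H0 ≤ K := fun s hs => hBB' hs
  have hcoatom : IsCoatom (H0.subgroupOf K) := by
    constructor
    · intro h
      apply hFB
      intro x hx
      obtain ⟨s, hs, hsx⟩ := htr α x
      have hsK : (⟨s, hs⟩ : S) ∈ K := by
        rw [hK]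
        change s α ∈ B'
        rw [hsx]; exact hFB' hx
      have : (⟨⟨s, hs⟩, hsK⟩ : K) ∈ H0.subgroupOf K := by rw [h]; trivial
      have h2 : s α ∈ B := this
      rw [hsx] at h2
      exact h2
    · intro L hL
      -- the block of L
      let C : Set Ω := {y | ∃ l : K, l ∈ L ∧ l.1.1 α = y}
      have hstabL : ∀ s : S, s.1 α = α → ∃ h : s ∈ K, (⟨s, h⟩ : K) ∈ L := by
        intro s hs
        have h1 : s ∈ H0 := by rw [hH0, hs]; exact hαB
        exact ⟨hHK h1, hL.le h1⟩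
      have hCblock : IsB S C := by
        intro s hs x hx hsx y hy
        obtain ⟨l, hl, hlx⟩ := hx
        obtain ⟨m, hm, hmx⟩ := hsx
        obtain ⟨n, hn, hny⟩ := hy
        have h1 : (m.1⁻¹ * ⟨s, hs⟩ * l.1 : S).1 α = α := by
          change m.1.1⁻¹ (s (l.1.1 α)) = α
          rw [hlx, ← hmx, inv_app]
        obtain ⟨h2, h3⟩ := hstabL _ h1
        refine ⟨m * ⟨_, h2⟩ * l⁻¹ * n, mul_mem (mul_mem (mul_mem hm h3) (inv_mem hl)) hn, ?_⟩
        change m.1.1 (m.1.1⁻¹ (s (l.1.1 (l.1.1⁻¹ (n.1.1 α))))) = s y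
        rw [app_inv, app_inv, hny]
      have hBC : B ⊆ C := by
        intro b hb
        obtain ⟨s, hs, hsb⟩ := htr α b
        have h1 : (⟨s, hs⟩ : S) ∈ H0 := by
          rw [hH0]; change s α ∈ B; rw [hsb]; exact hb
        exact ⟨⟨⟨s, hs⟩, hHK h1⟩, hL.le h1, hsb⟩
      have hne : B ≠ C := by
        intro heq
        apply hL.2
        intro l hl
        have h1 : l.1.1 α ∈ C := ⟨l, hl, rfl⟩
        rw [← heq] at h1
        exact h1
      have hB'C : B' ⊆ C := hmin C hCblock (Set.ssubset_iff_subset_ne.mpr ⟨hBC, hne⟩)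
      rw [eq_top_iff]
      intro k _
      obtain ⟨l, hl, hlk⟩ := hB'C (show k.1.1 α ∈ B' from k.2)
      have h1 : (l.1⁻¹ * k.1 : S).1 α = α := by
        change l.1.1⁻¹ (k.1.1 α) = α
        rw [← hlk, inv_app]
      obtain ⟨h2, h3⟩ := hstabL _ h1
      have h4 : k = l * ⟨_, h2⟩ := by
        apply Subtype.ext
        change k.1 = l.1 * (l.1⁻¹ * k.1)
        group
      rw [h4]
      exact mul_mem hl h3
  have hKp : IsPGroup p K := hSp.to_subgroup K
  have hlf : ∀ T : Set K, T.Finite → Finite (Subgroup.closure T) := by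
    intro T hT
    let f : K →* Perm Ω := S.subtype.comp K.subtype
    have hf : Function.Injective f := by
      intro a b hab
      exact Subtype.ext (Subtype.ext hab)
    have h1 : Finite (Subgroup.closure (f '' T)) := by
      apply finite_closure _ (hT.image f)
      rintro t ⟨k, hk, rfl⟩
      exact hfin _ k.1.2
    have h2 : (Subgroup.closure T).map f = Subgroup.closure (f '' T) := MonoidHom.map_closure f T
    have h3 : ∀ x : Subgroup.closure T, f x.1 ∈ Subgroup.closure (f '' T) := by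
      intro x
      rw [← h2]
      exact Subgroup.mem_map_of_mem f x.2
    refine Finite.of_injective
      (fun x : Subgroup.closure T => (⟨f x.1, h3 x⟩ : Subgroup.closure (f '' T))) ?_
    intro a b hab
    apply Subtype.ext
    apply hf
    have h4 := congrArg Subtype.val hab
    exact h4
  obtain ⟨R, hR, hcos⟩ := finite_cosets hKp hlf _ hcoatom
  have hcover : B' ⊆ ⋃ r ∈ R, (fun x => r.1.1 x) '' B := by
    intro b hb
    obtain ⟨s, hs, hsb⟩ := htr α b
    have hsK : (⟨s, hs⟩ : S) ∈ K := by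
      rw [hK]
      change s α ∈ B'
      rw [hsb]; exact hb
    obtain ⟨r, hr, h, hh, hrh⟩ := hcos ⟨⟨s, hs⟩, hsK⟩
    refine Set.mem_biUnion hr ⟨h.1.1 α, hh, ?_⟩
    have h1 := congrArg (fun k : K => k.1.1 α) hrh
    change s α = r.1.1 (h.1.1 α) at h1
    change r.1.1 (h.1.1 α) = b
    rw [← h1, hsb]
  exact (hR.biUnion (fun r _ => hBfin.image _)).subset hcover

/-! ### an invariant Sylow subgroup -/

theorem exists_inv_sylow {A : Type*} [Group A] (p : ℕ) [Fact p.Prime] (M R : Subgroup A)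
    (hM : Finite M) (hR : IsPGroup p R) (hn : ∀ r ∈ R, ∀ m ∈ M, r * m * r⁻¹ ∈ M) :
    ∃ P : Sylow p M, ∀ r ∈ R, ∀ q ∈ (P : Subgroup M).map M.subtype,
      r * q * r⁻¹ ∈ (P : Subgroup M).map M.subtype := by
  have hle : R ≤ Subgroup.normalizer (M : Set A) := by
    intro r hr
    rw [Subgroup.mem_normalizer_iff]
    intro m
    constructor
    · exact hn r hr m
    · intro h
      have := hn r⁻¹ (R.inv_mem hr) _ h
      have h2 : r⁻¹ * (r * m * r⁻¹) * r⁻¹⁻¹ = m := by group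
      rwa [h2] at this
  let φ : R →* MulAut M := (M.normalizerMonoidHom).comp (Subgroup.inclusion hle)
  have hφ : ∀ (r : R) (m : M), ((φ r) m : A) = r.1 * m.1 * r.1⁻¹ := by
    intro r m
    rfl
  let act : MulAction R (Sylow p M) := MulAction.compHom (Sylow p M) φ
  have hcard : ¬ p ∣ Nat.card (Sylow p M) := not_dvd_card_sylow p M
  obtain ⟨P, hP⟩ := hR.nonempty_fixed_point_of_prime_not_dvd_card (Sylow p M) hcard
  refine ⟨P, ?_⟩
  intro r hr q hq
  obtain ⟨m, hm, rfl⟩ := hq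
  have h1 : (φ ⟨r, hr⟩) • P = P := hP ⟨r, hr⟩
  have h2 : (φ ⟨r, hr⟩) • m ∈ (φ ⟨r, hr⟩) • (P : Subgroup M) := by
    exact Subgroup.smul_mem_pointwise_smul m (φ ⟨r, hr⟩) _ hm
  have h3 : (φ ⟨r, hr⟩) • (P : Subgroup M) = (P : Subgroup M) := by
    rw [← Sylow.pointwise_smul_def, h1]
  rw [h3] at h2
  exact ⟨_, h2, hφ ⟨r, hr⟩ m⟩

theorem key {p : ℕ} [Fact p.Prime] (S M : Subgroup (Perm Ω))
    (hSp : IsPGroup p S)
    (htr : ∀ x y, ∃ s ∈ S, s x = y)
    (hmax : ∀ P : Subgroup (Perm Ω), P ≤ M → IsPGroup p P →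
      (∀ s ∈ S, ∀ q ∈ P, s * q * s⁻¹ ∈ P) → P ≤ S)
    (hn : ∀ s ∈ S, ∀ m ∈ M, s * m * s⁻¹ ∈ M)
    (Δ : Set Ω) (hΔ : Δ.Finite) (α : Ω) (hα : α ∈ Δ) (hB : IsB S Δ) :
    ∃ P : Sylow p ↥(M ⊓ suppIn Δ),
      ∀ q ∈ (P : Subgroup ↥(M ⊓ suppIn Δ)).map (M ⊓ suppIn Δ).subtype, q ∈ S := by
  set MD : Subgroup (Perm Ω) := M ⊓ suppIn Δ with hMD
  have hMDfin : Finite MD := by
    have := finite_suppIn hΔ
    exact Finite.of_injective _ (Subgroup.inclusion_injective (inf_le_right : MD ≤ suppIn Δ))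
  -- the stabilizer of Δ
  let R : Subgroup (Perm Ω) :=
    { carrier := {s | s ∈ S ∧ s α ∈ Δ}
      mul_mem' := by
        intro a b ha hb
        exact ⟨mul_mem ha.1 hb.1, hB a ha.1 α hα ha.2 _ hb.2⟩
      one_mem' := ⟨one_mem _, hα⟩
      inv_mem' := by
        intro a ha
        refine ⟨inv_mem ha.1, hB a⁻¹ (inv_mem ha.1) (a α) ha.2 ?_ α hα⟩
        rw [inv_app]
        exact hα }
  have hRS : R ≤ S := fun s hs => hs.1
  have hRp : IsPGroup p R := hSp.to_le hRS
  have hRΔ : ∀ r ∈ R, ∀ x ∈ Δ, r x ∈ Δ := fun r hr x hx => hB r hr.1 α hα hr.2 x hx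
  have hnR : ∀ r ∈ R, ∀ m ∈ MD, r * m * r⁻¹ ∈ MD := by
    intro r hr m hm
    refine ⟨hn r hr.1 m hm.1, ?_⟩
    intro x hx
    have hx' : r⁻¹ x ∉ Δ := by
      intro h
      apply hx
      have := hRΔ r hr _ h
      rwa [app_inv] at this
    change r (m (r⁻¹ x)) = x
    rw [hm.2 _ hx', app_inv]
  obtain ⟨P, hP⟩ := exists_inv_sylow p MD R hMDfin hRp hnR
  refine ⟨P, ?_⟩
  set Q : Subgroup (Perm Ω) := (P : Subgroup MD).map MD.subtype with hQ
  have hQMD : Q ≤ MD := by
    rintro _ ⟨m, _, rfl⟩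
    exact m.2
  have hQp : IsPGroup p Q := P.isPGroup'.map MD.subtype
  have hQmaps : ∀ q ∈ Q, ∀ x ∈ Δ, q x ∈ Δ := fun q hq x hx => suppIn_maps (hQMD hq).2 hx
  -- the group E
  let E : Subgroup (Perm Ω) :=
    { carrier := {g | ∀ s ∈ S, ∃ q ∈ Q, ∀ x ∈ Δ, g (s x) = s (q x)}
      mul_mem' := by
        intro a b ha hb s hs
        obtain ⟨q, hq, hqx⟩ := hb s hs
        obtain ⟨q', hq', hqx'⟩ := ha s hs
        refine ⟨q' * q, mul_mem hq' hq, ?_⟩
        intro x hx
        rw [Perm.mul_apply, hqx x hx, hqx' _ (hQmaps q hq x hx), Perm.mul_apply]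
      one_mem' := fun s _ => ⟨1, one_mem _, fun x _ => rfl⟩
      inv_mem' := by
        intro a ha s hs
        obtain ⟨q, hq, hqx⟩ := ha s hs
        refine ⟨q⁻¹, inv_mem hq, ?_⟩
        intro x hx
        have h1 := hqx (q⁻¹ x) (hQmaps _ (inv_mem hq) x hx)
        rw [app_inv] at h1
        rw [← h1, inv_app] }
  have hEp : IsPGroup p E := by
    have hQfin : Finite Q := Finite.of_injective _ (Subgroup.inclusion_injective hQMD)
    obtain ⟨n, hn⟩ := IsPGroup.iff_card.mp hQp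
    intro g
    refine ⟨n, ?_⟩
    apply Subtype.ext
    change g.1 ^ p ^ n = 1
    rw [← hn]
    have hpow : ∀ s ∈ S, ∃ q ∈ Q, ∀ k : ℕ, ∀ x ∈ Δ, (g.1 ^ k) (s x) = s ((q ^ k) x) := by
      intro s hs
      obtain ⟨q, hq, hqx⟩ := g.2 s hs
      refine ⟨q, hq, ?_⟩
      intro k
      induction k with
      | zero => intro x _; simp
      | succ k ih =>
        intro x hx
        rw [pow_succ, Perm.mul_apply, hqx x hx, ih _ (hQmaps q hq x hx), pow_succ,
          Perm.mul_apply]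
    ext y
    obtain ⟨s, hs, hsy⟩ := htr α y
    obtain ⟨q, hq, hqk⟩ := hpow s hs
    have h1 := hqk (Nat.card Q) α hα
    rw [hsy] at h1
    rw [h1]
    have h2 : q ^ Nat.card Q = 1 := by
      have : (⟨q, hq⟩ : Q) ^ Nat.card Q = 1 := pow_card_eq_one'
      exact congrArg Subtype.val this
    rw [h2, Perm.one_apply, Perm.one_apply, hsy]
  -- conjugates of Q
  let Pt : Subgroup (Perm Ω) := Subgroup.closure {g | ∃ t ∈ S, ∃ q ∈ Q, g = t * q * t⁻¹}
  have hPtE : Pt ≤ E := by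
    refine (Subgroup.closure_le _).mpr ?_
    rintro _ ⟨t, ht, q, hq, rfl⟩
    intro s hs
    by_cases hcase : t⁻¹ (s α) ∈ Δ
    · have hu : t⁻¹ * s ∈ R := ⟨mul_mem (inv_mem ht) hs, hcase⟩
      refine ⟨(t⁻¹ * s)⁻¹ * q * (t⁻¹ * s)⁻¹⁻¹, hP _ (inv_mem hu) q hq, ?_⟩
      intro x _
      have h1 : t * q * t⁻¹ * s = s * ((t⁻¹ * s)⁻¹ * q * (t⁻¹ * s)⁻¹⁻¹) := by group
      exact congrArg (fun f : Perm Ω => f x) h1
    · refine ⟨1, one_mem _, ?_⟩
      intro x hx
      change t (q (t⁻¹ (s x))) = s x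
      have h1 : t⁻¹ (s x) ∉ Δ := by
        intro h
        apply hcase
        exact hB (t⁻¹ * s) (mul_mem (inv_mem ht) hs) x hx h α hα
      rw [(hQMD hq).2 _ h1, app_inv]
  have hPtM : Pt ≤ M := by
    refine (Subgroup.closure_le _).mpr ?_
    rintro _ ⟨t, ht, q, hq, rfl⟩
    exact hn t ht q (hQMD hq).1
  have hPtp : IsPGroup p Pt := hEp.to_le hPtE
  have hPtn : ∀ s ∈ S, ∀ q ∈ Pt, s * q * s⁻¹ ∈ Pt := by
    intro s hs q hq
    have h1 : Pt ≤ Pt.comap (MulAut.conj s).toMonoidHom := by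
      refine (Subgroup.closure_le _).mpr ?_
      rintro _ ⟨t, ht, q, hq, rfl⟩
      change s * (t * q * t⁻¹) * s⁻¹ ∈ Pt
      apply Subgroup.subset_closure
      exact ⟨s * t, mul_mem hs ht, q, hq, by group⟩
    exact h1 hq
  have hPtS := hmax Pt hPtM hPtp hPtn
  intro q hq
  apply hPtS
  apply Subgroup.subset_closure
  exact ⟨1, one_mem _, q, hq, by group⟩

theorem le_sylow {p : ℕ} [Fact p.Prime] (G : Subgroup (Perm Ω)) (S : Sylow p G)
    (P : Subgroup (Perm Ω)) (hPG : P ≤ G) (hP : IsPGroup p P)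
    (hn : ∀ s ∈ (S : Subgroup G).map G.subtype, ∀ q ∈ P, s * q * s⁻¹ ∈ P) :
    P ≤ (S : Subgroup G).map G.subtype := by
  set S' : Subgroup (Perm Ω) := (S : Subgroup G).map G.subtype with hS'
  have hS'G : S' ≤ G := by
    rintro _ ⟨s, _, rfl⟩
    exact s.2
  have hS'p : IsPGroup p S' := S.isPGroup'.map G.subtype
  have hle : S' ≤ Subgroup.normalizer (P : Set (Perm Ω)) := by
    intro r hr
    rw [Subgroup.mem_normalizer_iff]
    intro m
    constructor
    · exact hn r hr m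
    · intro h
      have := hn r⁻¹ (S'.inv_mem hr) _ h
      have h2 : r⁻¹ * (r * m * r⁻¹) * r⁻¹⁻¹ = m := by group
      rwa [h2] at this
  have hsup : IsPGroup p (S' ⊔ P : Subgroup (Perm Ω)) := hS'p.to_sup_of_normal_right' hP hle
  have hsup' : IsPGroup p ((S' ⊔ P).subgroupOf G) := hsup.comap_subtype
  have hle2 : (S : Subgroup G) ≤ (S' ⊔ P).subgroupOf G := by
    intro s hs
    exact (le_sup_left : S' ≤ S' ⊔ P) ⟨s, hs, rfl⟩
  have heq := S.is_maximal' hsup' hle2
  intro q hq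
  have h1 : (⟨q, hPG hq⟩ : G) ∈ (S' ⊔ P).subgroupOf G := (le_sup_right : P ≤ S' ⊔ P) hq
  rw [heq] at h1
  exact ⟨_, h1, rfl⟩

/-- **Q1 and Q2 of MP_055c61_al.**  Let `G` be a group of finitary permutations of `Ω`, `N` a
normal subgroup and `S` a Sylow `p`-subgroup of `G` (a maximal `p`-subgroup) which is transitive
on `Ω`.  Then `S ∩ N` is a Sylow `p`-subgroup of `N`, and the image of `S` in `G ⧸ N` is a Sylow
`p`-subgroup of `G ⧸ N`. -/
theorem result (p : ℕ) [Fact p.Prime] {Ω : Type*} (G : Subgroup (Perm Ω))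
    (hfin : ∀ g ∈ G, {x | g x ≠ x}.Finite) (N : Subgroup G) [N.Normal] (S : Sylow p G)
    (hS : ∀ x y : Ω, ∃ g : G, g ∈ S ∧ (g : Perm Ω) x = y) :
    (∃ P : Sylow p N, (P : Subgroup N) = (S : Subgroup G).subgroupOf N) ∧
    (∃ P : Sylow p (G ⧸ N),
      (P : Subgroup (G ⧸ N)) = (S : Subgroup G).map (QuotientGroup.mk' N)) := by
  rcases isEmpty_or_nonempty Ω with hΩ | ⟨⟨α⟩⟩
  · have h1 : Subsingleton G := ⟨fun a b => Subtype.ext (Subsingleton.elim _ _)⟩
    have h2 : Subsingleton (G ⧸ N) := by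
      constructor
      intro a b
      obtain ⟨a', rfl⟩ := QuotientGroup.mk'_surjective N a
      obtain ⟨b', rfl⟩ := QuotientGroup.mk'_surjective N b
      rw [Subsingleton.elim a' b']
    have h3 : Subsingleton N := ⟨fun a b => Subtype.ext (Subsingleton.elim _ _)⟩
    exact ⟨⟨default, Subsingleton.elim _ _⟩, ⟨default, Subsingleton.elim _ _⟩⟩
  set S' : Subgroup (Perm Ω) := (S : Subgroup G).map G.subtype with hS'
  have hS'G : S' ≤ G := by
    rintro _ ⟨s, _, rfl⟩
    exact s.2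
  have hS'p : IsPGroup p S' := S.isPGroup'.map G.subtype
  have htr : ∀ x y, ∃ s ∈ S', s x = y := by
    intro x y
    obtain ⟨g, hg, hgx⟩ := hS x y
    exact ⟨g.1, ⟨g, hg, rfl⟩, hgx⟩
  have hS'fin : ∀ s ∈ S', {x | s x ≠ x}.Finite := fun s hs => hfin s (hS'G hs)
  have hmem : ∀ g : G, g.1 ∈ S' → g ∈ (S : Subgroup G) := by
    rintro g ⟨s, hs, hsg⟩
    have : s = g := Subtype.ext hsg
    rw [← this]; exact hs
  constructor
  · -- Q1
    refine ⟨⟨(S : Subgroup G).subgroupOf N, S.isPGroup'.comap_subtype, ?_⟩, rfl⟩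
    intro Q hQ hle
    apply le_antisymm _ hle
    intro x hx
    obtain ⟨Δ, hΔ, hFΔ, hαΔ, hB⟩ := exists_finite_block S' hS'p hS'fin htr α
      {y | (x : G).1 y ≠ y} (hfin _ (x : G).2)
    have hNG : N.map G.subtype ≤ G := by
      rintro _ ⟨s, _, rfl⟩
      exact s.2
    let MD : Subgroup (Perm Ω) := N.map G.subtype ⊓ suppIn Δ
    obtain ⟨P, hP⟩ : ∃ P : Sylow p MD, ∀ q ∈ (P : Subgroup MD).map MD.subtype, q ∈ S' :=
      key S' (N.map G.subtype) hS'p htr
      (fun P hPM hPp hPn => le_sylow G S P (hPM.trans hNG) hPp hPn)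
      (by
        rintro _ ⟨s, _, rfl⟩ _ ⟨m, hm, rfl⟩
        exact ⟨s * m * s⁻¹, ‹N.Normal›.conj_mem m hm s, rfl⟩)
      Δ hΔ α hαΔ hB
    let Q' : Subgroup (Perm Ω) := ((Q.map N.subtype).map G.subtype)
    have hQ'p : IsPGroup p Q' := (hQ.map _).map _
    have hQ'p' : IsPGroup p (Q'.subgroupOf MD) := hQ'p.comap_subtype
    have hPQ' : (P : Subgroup MD) ≤ Q'.subgroupOf MD := by
      intro m hm
      have h1 : m.1 ∈ S' := hP _ ⟨m, hm, rfl⟩
      obtain ⟨n, hn, hnm⟩ := m.2.1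
      have h2 : n ∈ (S : Subgroup G) := hmem n (by
        have : n.1 = m.1 := hnm
        rw [this]; exact h1)
      have h3 : (⟨n, hn⟩ : N) ∈ Q := hle h2
      exact ⟨n, ⟨⟨n, hn⟩, h3, rfl⟩, hnm⟩
    have heq := P.is_maximal' hQ'p' hPQ'
    have hxMD : (x : G).1 ∈ MD := by
      refine ⟨⟨x, x.2, rfl⟩, ?_⟩
      intro y hy
      by_contra h
      exact hy (hFΔ h)
    have hxQ : (⟨(x : G).1, hxMD⟩ : MD) ∈ Q'.subgroupOf MD := ⟨x, ⟨x, hx, rfl⟩, rfl⟩
    rw [heq] at hxQ
    have h4 : (x : G).1 ∈ S' := hP _ ⟨_, hxQ, rfl⟩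
    exact hmem x h4
  · -- Q2
    refine ⟨⟨(S : Subgroup G).map (QuotientGroup.mk' N), S.isPGroup'.map _, ?_⟩, rfl⟩
    intro Q hQ hle
    apply le_antisymm _ hle
    intro z hz
    obtain ⟨x, rfl⟩ := QuotientGroup.mk'_surjective N z
    obtain ⟨Δ, hΔ, hFΔ, hαΔ, hB⟩ := exists_finite_block S' hS'p hS'fin htr α
      {y | x.1 y ≠ y} (hfin _ x.2)
    set T : Subgroup G := Q.comap (QuotientGroup.mk' N) with hT
    have hTG : T.map G.subtype ≤ G := by
      rintro _ ⟨s, _, rfl⟩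
      exact s.2
    have hST : (S : Subgroup G) ≤ T := by
      intro s hs
      exact hle ⟨s, hs, rfl⟩
    let TD : Subgroup (Perm Ω) := T.map G.subtype ⊓ suppIn Δ
    obtain ⟨P, hP⟩ : ∃ P : Sylow p TD, ∀ q ∈ (P : Subgroup TD).map TD.subtype, q ∈ S' :=
      key S' (T.map G.subtype) hS'p htr
      (fun P hPM hPp hPn => le_sylow G S P (hPM.trans hTG) hPp hPn)
      (by
        rintro _ ⟨s, hs, rfl⟩ _ ⟨m, hm, rfl⟩
        exact ⟨s * m * s⁻¹, mul_mem (mul_mem (hST hs) hm) (inv_mem (hST hs)), rfl⟩)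
      Δ hΔ α hαΔ hB
    have hTDfin : Finite TD := by
      have := finite_suppIn hΔ
      exact Finite.of_injective _ (Subgroup.inclusion_injective (inf_le_right : TD ≤ suppIn Δ))
    -- ND
    let ND : Subgroup TD := (N.map G.subtype).subgroupOf TD
    have hNDn : ND.Normal := by
      constructor
      rintro n ⟨m, hm, hmn⟩ g
      obtain ⟨g', hg', hgg⟩ := g.2.1
      refine ⟨g' * m * g'⁻¹, ‹N.Normal›.conj_mem m hm g', ?_⟩
      have h1 : m.1 = n.1 := hmn
      have h2 : g'.1 = g.1 := hgg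
      change g'.1 * m.1 * g'.1⁻¹ = g.1 * n.1 * g.1⁻¹
      rw [h1, h2]
    have hquot : IsPGroup p (TD ⧸ ND) := by
      intro q
      obtain ⟨t, rfl⟩ := QuotientGroup.mk'_surjective ND q
      obtain ⟨g, hg, hgt⟩ := t.2.1
      have hgQ : QuotientGroup.mk' N g ∈ Q := hg
      obtain ⟨k, hk⟩ := hQ ⟨_, hgQ⟩
      refine ⟨k, ?_⟩
      have h1 : (QuotientGroup.mk' N g) ^ p ^ k = 1 := congrArg Subtype.val hk
      rw [← map_pow, QuotientGroup.mk'_apply, QuotientGroup.eq_one_iff] at h1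
      rw [← map_pow, QuotientGroup.mk'_apply, QuotientGroup.eq_one_iff]
      refine ⟨g ^ p ^ k, h1, ?_⟩
      have h2 : g.1 = t.1 := hgt
      change g.1 ^ p ^ k = t.1 ^ p ^ k
      rw [h2]
    have htop : (P : Subgroup TD) ⊔ ND = ⊤ := by
      rw [← Subgroup.index_eq_one]
      obtain ⟨k, hk⟩ := IsPGroup.iff_card.mp hquot
      have h1 : ((P : Subgroup TD) ⊔ ND).index ∣ ND.index :=
        Subgroup.index_dvd_of_le le_sup_right
      have h2 : ((P : Subgroup TD) ⊔ ND).index ∣ (P : Subgroup TD).index :=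
        Subgroup.index_dvd_of_le le_sup_left
      have h3 : ND.index = p ^ k := hk
      rw [h3] at h1
      obtain ⟨j, _, hj⟩ := (Nat.dvd_prime_pow Fact.out).mp h1
      rcases Nat.eq_zero_or_pos j with hj0 | hj0
      · rw [hj, hj0, pow_zero]
      · exfalso
        apply Sylow.not_dvd_index P
        refine dvd_trans ?_ h2
        rw [hj]
        exact dvd_pow_self p hj0.ne'
    have hxTD : x.1 ∈ TD := by
      refine ⟨⟨x, hz, rfl⟩, ?_⟩
      intro y hy
      by_contra h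
      exact hy (hFΔ h)
    have hxtop : (⟨x.1, hxTD⟩ : TD) ∈ (P : Subgroup TD) ⊔ ND := by rw [htop]; trivial
    obtain ⟨a, ha, b, hb, hab⟩ := Subgroup.mem_sup_of_normal_right.mp hxtop
    have haS : a.1 ∈ S' := hP _ ⟨a, ha, rfl⟩
    obtain ⟨s, hs, hsa⟩ := haS
    obtain ⟨n, hn, hnb⟩ := hb
    have h5 : x = s * n := by
      apply Subtype.ext
      have h6 : a.1 * b.1 = x.1 := congrArg Subtype.val hab
      have h7 : s.1 = a.1 := hsa
      have h8 : n.1 = b.1 := hnb
      change x.1 = s.1 * n.1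
      rw [h7, h8, h6]
    refine ⟨s, hs, ?_⟩
    rw [h5, map_mul]
    have h9 : QuotientGroup.mk' N n = 1 := by
      rw [QuotientGroup.mk'_apply, QuotientGroup.eq_one_iff]
      exact hn
    rw [h9, mul_one]

end Pool.Agent.Results.MP_055c61_al.TransitiveSylow
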